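import Pool.Agent.Helper17.SA.St3

set_option autoImplicit false

open Equiv Pool.Agent.Helper17.SA

namespace Pool.Agent.Helper36.SA

theorem pLIN : StLIN := by
  intro Ω _ ι _ p K hp hinj hK hcomm
  let F : Subgroup (Perm Ω) := Subgroup.closure {g | ∃ i, g ∈ K i}
  have hKF : ∀ i, ∀ g ∈ K i, g ∈ F := fun i g hg => Subgroup.subset_closure ⟨i, hg⟩
  let B : Set Ω := Set.range (fun x : Quotient (MulAction.orbitRel F Ω) => Quotient.out x)
  have hB : ∀ o ∈ B, ∀ o' ∈ B, (∃ f ∈ F, f o' = o) → o = o' := by
    rintro o ⟨a, rfl⟩ o' ⟨b, rfl⟩ ⟨f, hf, h⟩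
    have h1 : (Quotient.mk _ (Quotient.out a) : Quotient (MulAction.orbitRel F Ω)) =
        Quotient.mk _ (Quotient.out b) := by
      apply Quotient.sound
      change (MulAction.orbitRel F Ω) _ _
      rw [MulAction.orbitRel_apply]
      exact ⟨⟨f, hf⟩, h⟩
    rw [Quotient.out_eq, Quotient.out_eq] at h1
    rw [h1]
  have hrep : ∀ ω : Ω, ∃ o ∈ B, ∃ f ∈ F, f o = ω := by
    intro ω
    refine ⟨Quotient.out (Quotient.mk (MulAction.orbitRel F Ω) ω), ⟨_, rfl⟩, ?_⟩
    have h1 : (MulAction.orbitRel F Ω) ω
        (Quotient.out (Quotient.mk (MulAction.orbitRel F Ω) ω)) :=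
      Quotient.exact (Quotient.out_eq _).symm
    rw [MulAction.orbitRel_apply] at h1
    obtain ⟨f, hf⟩ := h1
    exact ⟨f.1, f.2, hf⟩
  refine ⟨B, ?_, ?_⟩
  · intro i y hy hfix
    have key : ∀ f ∈ F, ∀ o ∈ B, ∀ z ∈ K i, y (z (f o)) = z (f o) := by
      intro f hf
      induction hf using Subgroup.closure_induction_left with
      | one => intro o ho z hz; simpa using hfix o ho z hz
      | mul_left x hx g hg ih =>
        obtain ⟨j, hj⟩ := hx
        intro o ho z hz
        by_cases hij : i = j
        · subst hij
          have := ih o ho (z * x) (mul_mem hz hj)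
          simpa using this
        · have h1 := ih o ho z hz
          have h2 := hcomm i j hij z hz x hj
          have h3 := hcomm i j hij y hy x hj
          have e1 : z (x (g o)) = x (z (g o)) := by
            have := congrArg (fun e : Perm Ω => e (g o)) h2
            simpa using this
          have e2 : y (x (z (g o))) = x (y (z (g o))) := by
            have := congrArg (fun e : Perm Ω => e (z (g o))) h3
            simpa using this
          change y (z (x (g o))) = z (x (g o))
          rw [e1, e2, h1]
      | inv_mul_cancel x hx g hg ih =>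
        obtain ⟨j, hj'⟩ := hx
        have hj : x⁻¹ ∈ K j := inv_mem hj'
        intro o ho z hz
        by_cases hij : i = j
        · subst hij
          have := ih o ho (z * x⁻¹) (mul_mem hz hj)
          simpa using this
        · have h1 := ih o ho z hz
          have h2 := hcomm i j hij z hz _ hj
          have h3 := hcomm i j hij y hy _ hj
          have e1 : z (x⁻¹ (g o)) = x⁻¹ (z (g o)) := by
            have := congrArg (fun e : Perm Ω => e (g o)) h2
            simpa using this
          have e2 : y (x⁻¹ (z (g o))) = x⁻¹ (y (z (g o))) := by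
            have := congrArg (fun e : Perm Ω => e (z (g o))) h3
            simpa using this
          change y (z (x⁻¹ (g o))) = z (x⁻¹ (g o))
          rw [e1, e2, h1]
    apply Equiv.ext
    intro ω
    obtain ⟨o, ho, f, hf, rfl⟩ := hrep ω
    simpa using key f hf o ho 1 (one_mem _)
  · intro o ho o' ho' i j y hy z hz h
    have hoo : o = o' := by
      apply hB o ho o' ho'
      refine ⟨y⁻¹ * z, mul_mem (inv_mem (hKF i y hy)) (hKF j z hz), ?_⟩
      rw [Perm.mul_apply, ← h]
      simp
    refine ⟨hoo, ?_⟩
    subst hoo
    by_cases hij : i = j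
    · exact Or.inl hij
    · right
      have hc : Commute (z⁻¹) y := by
        have : y * z⁻¹ = z⁻¹ * y := hcomm i j hij y hy z⁻¹ (inv_mem hz)
        exact this.symm
      have hfix : (z⁻¹ * y) o = o := by
        rw [Perm.mul_apply, h]; simp
      have hfixn : ∀ (g : Perm Ω), g o = o → ∀ n : ℕ, (g ^ n) o = o := by
        intro g hg n
        induction n with
        | zero => simp
        | succ n ih => rw [pow_succ, Perm.mul_apply, hg, ih]
      obtain ⟨a, ha⟩ := (hK i) ⟨y, hy⟩
      obtain ⟨b, hb⟩ := (hK j) ⟨z, hz⟩
      have ha' : y ^ (p i) ^ a = 1 := by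
        have := congrArg Subtype.val ha
        simpa using this
      have hb' : z ^ (p j) ^ b = 1 := by
        have := congrArg Subtype.val hb
        simpa using this
      have h1 : (y ^ (p j) ^ b) o = o := by
        have := hfixn _ hfix ((p j) ^ b)
        rw [hc.mul_pow, inv_pow, hb', inv_one, one_mul] at this
        exact this
      have hcop : Nat.Coprime ((p j) ^ b) (orderOf y) := by
        have hd : orderOf y ∣ (p i) ^ a := orderOf_dvd_of_pow_eq_one ha'
        have hpp : Nat.Coprime ((p j) ^ b) ((p i) ^ a) := by
          apply Nat.Coprime.pow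
          rw [Nat.coprime_primes (hp j) (hp i)]
          intro h
          exact hij (hinj h).symm
        exact Nat.Coprime.coprime_dvd_right hd hpp
      obtain ⟨m, hm⟩ := exists_pow_eq_self_of_coprime hcop
      have := hfixn _ h1 m
      rw [hm] at this
      exact this

end Pool.Agent.Helper36.SA
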